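import Pool.Agent.U737.MN.Stm2
import Pool.Agent.U875.MN.FewGal

/-!
# Project MN (helper737), package FewGal2: few extensions with group `H` on `P`, all faithful
transitive actions of large degree

The group-theoretic part (`group_iso`, `fiber_bound`) and the final summation are those of
`Pool/Agent/U875/MN/FewGal.lean` (helper875).
-/

set_option autoImplicit false

open NumberField Filter Topology Pool.Agent.TH444.ML

namespace Pool.Agent.U891.MN

open Pool.Agent.TH228.J3101 (nf dsc_eq one_le)
open Pool.Agent.U875.MN (group_iso fiber_bound)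
open Pool.Agent.U737.MN (DiscSup)

section
variable {K Ω : Type} [Field K] [NumberField K] [Field Ω] [Algebra K Ω]

/-- the root discriminant of the compositum of several fields -/
lemma sup_bound (hD : DiscSup) {P : Type} (A : P → IntermediateField K Ω)
    (hfd : ∀ x, FiniteDimensional K (A x)) (c : ℝ) (T : Finset P) (hT : T.Nonempty)
    (hA : ∀ x, Real.log (dsc (A x)) / Module.finrank K (A x) ≤ c) :
    FiniteDimensional K (T.sup A : IntermediateField K Ω) ∧
      Real.log (dsc (T.sup A)) / Module.finrank K (T.sup A : IntermediateField K Ω) ≤ T.card * c := by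
  classical
  induction hT using Finset.Nonempty.cons_induction with
  | singleton x =>
    rw [Finset.sup_singleton, Finset.card_singleton, Nat.cast_one, one_mul]
    exact ⟨hfd x, hA x⟩
  | cons x T hx hT ih =>
    obtain ⟨h1, h2⟩ := ih
    have h3 := hfd x
    rw [Finset.sup_cons, Finset.card_cons]
    refine ⟨inferInstance, ?_⟩
    refine (hD K Ω (A x) (T.sup A)).trans ?_
    push_cast
    have := hA x
    linarith

/-- conjugate fields have the same discriminant -/
lemma dsc_fieldRange (M : IntermediateField K Ω) [FiniteDimensional K M] (φ : M →ₐ[K] Ω) :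
    FiniteDimensional K φ.fieldRange ∧ dsc φ.fieldRange = dsc M ∧
      Module.finrank K φ.fieldRange = Module.finrank K M := by
  have h1 : FiniteDimensional K φ.fieldRange := φ.equivFieldRange.toLinearEquiv.finiteDimensional
  refine ⟨h1, ?_, φ.equivFieldRange.toLinearEquiv.finrank_eq.symm⟩
  have hnM : NumberField M := nf M
  have hnF : NumberField φ.fieldRange := nf _
  rw [dsc_eq, dsc_eq, discr_eq_discr_of_ringEquiv _ φ.equivFieldRange.toRingEquiv]

lemma main2 [IsAlgClosure K Ω] (hD : DiscSup) {H P : Type} [Group H] [Finite H] [MulAction H P]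
    [Finite P] [FaithfulSMul H P] (S : Finset P) (U : Subgroup H)
    (hS : S.Nonempty) (hbase : ∀ h : H, (∀ x ∈ S, h • x = x) → h = 1) (hU : U.normalCore = ⊥)
    (hcard : 8 * S.card * U.index * (U.index + 1) ≤ Nat.card P)
    (M : IntermediateField K Ω) (hM : M ∈ Pool.Agent.U737.MN.Gal K Ω H P) :
    ∃ N F : IntermediateField K Ω, M ≤ N ∧ Normal K N ∧ FiniteDimensional K N ∧
      Nonempty ((N ≃ₐ[K] N) ≃* H) ∧ FiniteDimensional K F ∧ Module.finrank K F = U.index ∧
      F ≤ N ∧ dsc F ^ (8 * (U.index + 1)) ≤ dsc M ∧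
      ∀ N' : IntermediateField K Ω, Normal K N' → F ≤ N' → N' ≤ N → N' = N := by
  obtain ⟨hfd, e, he⟩ := hM
  have hiso := group_iso e he (fun h hh => hbase h fun x _ => hh x)
  have hac : IsAlgClosed Ω := IsAlgClosure.isAlgClosed K
  have halg : Algebra.IsAlgebraic K Ω := IsAlgClosure.isAlgebraic
  have hnor : Normal K Ω := IsAlgClosure.normal K Ω
  have hMN : M ≤ IntermediateField.normalClosure K M Ω := IntermediateField.le_normalClosure M
  set N := IntermediateField.normalClosure K M Ω with hN
  obtain ⟨E, hE⟩ := hiso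
  have hNn : Normal K N := inferInstance
  have hNf : FiniteDimensional K N := inferInstance
  have hNg : IsGalois K N := ⟨⟩
  have hnN : NumberField N := nf N
  have hnM : NumberField M := nf M
  -- the compositum of the conjugates of the base
  set A : P → IntermediateField K Ω := fun x => (e.symm x).fieldRange with hAdef
  have hsupN : S.sup A = N := by
    have hle : S.sup A ≤ N := Finset.sup_le fun x _ => (e.symm x).fieldRange_le_normalClosure
    set N' : IntermediateField K N := IntermediateField.restrict hle with hN'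
    have h7 : N'.fixingSubgroup = ⊥ := by
      rw [Subgroup.eq_bot_iff_forall]
      intro τ hτ
      rw [IntermediateField.mem_fixingSubgroup_iff] at hτ
      have hl : ∀ x : N, (τ.liftNormal Ω) (x : Ω) = τ x := fun x => τ.liftNormal_commutes Ω x
      have h1 : E τ = 1 := by
        refine hbase _ fun x hx => ?_
        have h2 := hE (τ.liftNormal Ω) τ hl (e.symm x)
        rw [Equiv.apply_symm_apply] at h2
        rw [← h2]
        have h3 : (τ.liftNormal Ω).toAlgHom.comp (e.symm x) = e.symm x := by
          ext y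
          have h4 : (e.symm x) y ∈ S.sup A :=
            (Finset.le_sup (f := A) hx : A x ≤ S.sup A) ⟨y, rfl⟩
          have h5 : (⟨(e.symm x) y, hle h4⟩ : N) ∈ N' := (IntermediateField.mem_restrict hle _).2 h4
          have h6 := hτ _ h5
          have h8 := hl ⟨(e.symm x) y, hle h4⟩
          rw [h6] at h8
          exact h8
        rw [h3, Equiv.apply_symm_apply]
      exact E.injective (by rw [h1, map_one])
    have h8 : N' = ⊤ := by
      rw [← IsGalois.fixedField_fixingSubgroup N', h7, IntermediateField.fixedField_bot]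
    apply le_antisymm hle
    intro x hx
    have h9 : (⟨x, hx⟩ : N) ∈ N' := by rw [h8]; trivial
    exact (IntermediateField.mem_restrict hle ⟨x, hx⟩).1 h9
  -- the degree of `M`
  have hdeg : Module.finrank K M = Nat.card P := by
    rw [← AlgHom.card K M Ω, ← Nat.card_eq_fintype_card, Nat.card_congr e]
  have hPpos : 0 < Nat.card P := by rw [← hdeg]; exact Module.finrank_pos
  have hPpos' : (0 : ℝ) < Nat.card P := by exact_mod_cast hPpos
  have hsb := (sup_bound hD A (fun x => (dsc_fieldRange M (e.symm x)).1)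
    (Real.log (dsc M) / Nat.card P) S hS (fun x => by
      obtain ⟨-, h2, h3⟩ := dsc_fieldRange M (e.symm x)
      show Real.log (dsc (e.symm x).fieldRange) / Module.finrank K (e.symm x).fieldRange ≤ _
      rw [h2, h3, hdeg])).2
  rw [hsupN] at hsb
  have c3 : Module.finrank K N = Nat.card H := by
    rw [← IsGalois.card_aut_eq_finrank K N, Nat.card_congr E.toEquiv]
  rw [c3] at hsb
  obtain ⟨F, hFfd, hFr, hFN, hFd, hFmin⟩ := Pool.Agent.TH228.J3101.main N E U hU
  refine ⟨N, F, hMN, hNn, hNf, ⟨E⟩, hFfd, hFr, hFN, ?_, hFmin⟩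
  have hnF : NumberField F := nf F
  -- logarithms
  have hF1 : (1 : ℝ) ≤ dsc F := by rw [dsc_eq]; exact_mod_cast one_le F
  have hM1 : (1 : ℝ) ≤ dsc M := by rw [dsc_eq]; exact_mod_cast one_le M
  have hHpos : (0 : ℝ) < Nat.card H := by exact_mod_cast Nat.card_pos
  have hUpos : (0 : ℝ) < Nat.card U := by exact_mod_cast Nat.card_pos
  have hidx : (U.index : ℝ) * Nat.card U = Nat.card H := by exact_mod_cast U.index_mul_card
  have hlF : 0 ≤ Real.log (dsc F) := Real.log_nonneg hF1
  have hlM : 0 ≤ Real.log (dsc M) := Real.log_nonneg hM1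
  have h1 : Nat.card U * Real.log (dsc F) ≤ Real.log (dsc N) := by
    rw [← Real.log_pow]
    exact Real.log_le_log (by positivity) hFd
  rw [div_le_iff₀ hHpos] at hsb
  have h2 : Real.log (dsc F) ≤ U.index * (S.card * (Real.log (dsc M) / Nat.card P)) := by
    have h3 : Nat.card U * Real.log (dsc F) ≤
        Nat.card U * (U.index * (S.card * (Real.log (dsc M) / Nat.card P))) := by
      refine (h1.trans hsb).trans (le_of_eq ?_)
      rw [← hidx]
      ring
    exact le_of_mul_le_mul_left h3 hUpos
  have h4 : (8 * (U.index + 1) : ℝ) * Real.log (dsc F) ≤ Real.log (dsc M) := by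
    have h5 : (8 * S.card * U.index * (U.index + 1) : ℝ) ≤ Nat.card P := by exact_mod_cast hcard
    calc (8 * (U.index + 1) : ℝ) * Real.log (dsc F)
        ≤ (8 * (U.index + 1) : ℝ) * (U.index * (S.card * (Real.log (dsc M) / Nat.card P))) :=
          mul_le_mul_of_nonneg_left h2 (by positivity)
      _ = (8 * S.card * U.index * (U.index + 1) : ℝ) * (Real.log (dsc M) / Nat.card P) := by ring
      _ ≤ Nat.card P * (Real.log (dsc M) / Nat.card P) :=
          mul_le_mul_of_nonneg_right h5 (by positivity)
      _ = Real.log (dsc M) := by field_simp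
  have h6 : Real.log (dsc F ^ (8 * (U.index + 1))) ≤ Real.log (dsc M) := by
    rw [Real.log_pow]
    push_cast
    exact h4
  exact (Real.log_le_log_iff (by positivity) (by positivity)).1 h6

end

theorem t_FewGal2 : (Pool.Agent.TH444.ML.HermiteRel → Pool.Agent.U737.MN.DiscSup →
    Pool.Agent.U737.MN.FewGal2) := by
  intro h hD K Ω _ _ _ _ _ H P _ _ _ _ _ _ S U hS hbase hU hcard
  obtain ⟨C, hC⟩ := h K Ω U.index
  have key := fun M : Pool.Agent.U737.MN.Gal K Ω H P => main2 hD S U hS hbase hU hcard M.1 M.2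
  choose N F hMN hNn hNf hNE hfd hfr hFN hdsc hmin using key
  have hsame : ∀ M1 M2, F M1 = F M2 → N M1 = N M2 := by
    intro M1 M2 h12
    have g1 := hNn M1
    have g2 := hNn M2
    have hn : Normal K (N M1 ⊓ N M2 : IntermediateField K Ω) := inferInstance
    have e1 := hmin M1 (N M1 ⊓ N M2) hn
      (le_inf (hFN M1) (by rw [h12]; exact hFN M2)) inf_le_left
    have e2 := hmin M2 (N M1 ⊓ N M2) hn
      (le_inf (by rw [← h12]; exact hFN M1) (hFN M2)) inf_le_right
    exact e1.symm.trans e2
  have hnF : ∀ M, NumberField (F M) := fun M => by have := hfd M; exact nf _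
  have hnM : ∀ M : Pool.Agent.U737.MN.Gal K Ω H P, NumberField M.1 := fun M => by
    have : FiniteDimensional K M.1 := M.2.1
    exact nf _
  set g : Pool.Agent.U737.MN.Gal K Ω H P → ℕ := fun M => (discr (F M)).natAbs with hg
  have hg1 : ∀ M, 1 ≤ g M := fun M => one_le (F M)
  set B : ℕ := Nat.card (Subgroup H) with hB
  have hbound : ∀ M : Pool.Agent.U737.MN.Gal K Ω H P, (dsc M.1) ^ (-(1 / 4) : ℝ) ≤
      (1 : ℝ) / (g M : ℝ) ^ (2 * U.index + 2) := by
    intro M
    have h1 : (1 : ℝ) ≤ g M := by exact_mod_cast hg1 M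
    have h2 : (g M : ℝ) ^ (8 * (U.index + 1)) ≤ dsc M.1 := by
      refine le_trans (le_of_eq ?_) (hdsc M)
      rw [dsc_eq (F M)]
    have h3 : ((g M : ℝ) ^ (8 * (U.index + 1))) ^ (-(1 / 4) : ℝ) =
        (1 : ℝ) / (g M : ℝ) ^ (2 * U.index + 2) := by
      have h4 : (1 : ℝ) / (g M : ℝ) ^ (2 * U.index + 2) =
          (g M : ℝ) ^ (-((2 * U.index + 2 : ℕ) : ℝ)) := by
        rw [Real.rpow_neg (by positivity), Real.rpow_natCast, one_div]
      rw [h4, ← Real.rpow_natCast, ← Real.rpow_mul (by positivity)]
      congr 1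
      push_cast
      ring
    rw [← h3]
    exact Real.rpow_le_rpow_of_nonpos (by positivity) h2 (by norm_num)
  classical
  have hC0 : ∀ m : ℕ, 1 ≤ m → ∀ s : Finset (Pool.Agent.U737.MN.Gal K Ω H P), (∀ M ∈ s, g M = m) →
      (s.card : ℝ) ≤ B * (C * (m : ℝ) ^ (2 * U.index)) := by
    intro m hm s hs
    obtain ⟨hfin, hle⟩ := hC m (by exact_mod_cast hm)
    have h1 : (s.image F).card ≤ Set.ncard {F : IntermediateField K Ω |
        FiniteDimensional K F ∧ Module.finrank K F = U.index ∧ dsc F ≤ (m : ℝ)} := by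
      rw [← Set.ncard_coe_finset]
      refine Set.ncard_le_ncard ?_ hfin
      intro x hx
      rw [Finset.mem_coe, Finset.mem_image] at hx
      obtain ⟨M, hM, rfl⟩ := hx
      refine ⟨hfd M, hfr M, ?_⟩
      rw [dsc_eq (F M), ← hs M hM]
    have h2 : s.card ≤ B * (s.image F).card := by
      refine Finset.card_le_mul_card_image s B ?_
      intro a ha
      obtain ⟨M0, hM0, rfl⟩ := Finset.mem_image.1 ha
      obtain ⟨E⟩ := hNE M0
      have i1 := hNf M0
      have i2 := hNn M0
      have i3 : IsGalois K (N M0) := ⟨⟩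
      have h3 := fiber_bound (N M0) E
        ((s.filter (fun x => F x = F M0)).map ⟨Subtype.val, Subtype.val_injective⟩) (by
          intro M hM
          rw [Finset.mem_map] at hM
          obtain ⟨M1, hM1, rfl⟩ := hM
          rw [Finset.mem_filter] at hM1
          change M1.1 ≤ N M0
          rw [← hsame M1 M0 hM1.2]
          exact hMN M1)
      rwa [Finset.card_map] at h3
    have h4 : (s.card : ℝ) ≤ B * ((s.image F).card : ℝ) := by exact_mod_cast h2
    refine h4.trans (mul_le_mul_of_nonneg_left ?_ (by positivity))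
    exact le_trans (by exact_mod_cast h1) hle
  have hC' : 0 ≤ |C| := abs_nonneg C
  have hsum2 : Summable (fun m : ℕ => (1 : ℝ) / (m : ℝ) ^ 2) :=
    Real.summable_one_div_nat_pow.2 (by norm_num)
  refine Summable.of_nonneg_of_le (fun M => ?_) hbound ?_
  · exact Real.rpow_nonneg (by rw [dsc_eq]; positivity) _
  refine summable_of_sum_le (c := (B * |C|) * ∑' m : ℕ, (1 : ℝ) / (m : ℝ) ^ 2)
    (fun M => by positivity) ?_
  intro s
  calc ∑ M ∈ s, (1 : ℝ) / (g M : ℝ) ^ (2 * U.index + 2)
      = ∑ m ∈ s.image g, ∑ M ∈ s with g M = m, (1 : ℝ) / (g M : ℝ) ^ (2 * U.index + 2) :=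
        (Finset.sum_fiberwise_of_maps_to (fun M hM => Finset.mem_image_of_mem g hM) _).symm
    _ ≤ ∑ m ∈ s.image g, (B * |C|) * ((1 : ℝ) / (m : ℝ) ^ 2) := by
        refine Finset.sum_le_sum fun m hm => ?_
        obtain ⟨M0, hM0, hM0'⟩ := Finset.mem_image.1 hm
        have hm1 : 1 ≤ m := hM0' ▸ hg1 M0
        have hmpos : (0 : ℝ) < m := by exact_mod_cast hm1
        have e1 : ∑ M ∈ s with g M = m, (1 : ℝ) / (g M : ℝ) ^ (2 * U.index + 2) =
            ((s.filter (fun M => g M = m)).card : ℝ) * (1 / (m : ℝ) ^ (2 * U.index + 2)) := by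
          rw [Finset.sum_congr rfl (g := fun _ => (1 : ℝ) / (m : ℝ) ^ (2 * U.index + 2)),
            Finset.sum_const, nsmul_eq_mul]
          intro M hM
          rw [(Finset.mem_filter.1 hM).2]
        rw [e1]
        calc ((s.filter (fun M => g M = m)).card : ℝ) * (1 / (m : ℝ) ^ (2 * U.index + 2))
            ≤ (B * (|C| * (m : ℝ) ^ (2 * U.index))) * (1 / (m : ℝ) ^ (2 * U.index + 2)) := by
              refine mul_le_mul_of_nonneg_right ?_ (by positivity)
              refine (hC0 m hm1 _ fun M hM => (Finset.mem_filter.1 hM).2).trans ?_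
              refine mul_le_mul_of_nonneg_left ?_ (by positivity)
              exact mul_le_mul_of_nonneg_right (le_abs_self C) (by positivity)
          _ = (B * |C|) * ((1 : ℝ) / (m : ℝ) ^ 2) := by
              rw [pow_add]
              field_simp
    _ = (B * |C|) * ∑ m ∈ s.image g, (1 : ℝ) / (m : ℝ) ^ 2 := by rw [Finset.mul_sum]
    _ ≤ (B * |C|) * ∑' m : ℕ, (1 : ℝ) / (m : ℝ) ^ 2 := by
        refine mul_le_mul_of_nonneg_left ?_ (by positivity)
        exact hsum2.sum_le_tsum _ (fun m _ => by positivity)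

end Pool.Agent.U891.MN
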